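import Pool.Agent.Helper42.TN.GoalsT

/-!
# Project TG (MP_a41896_nt): the F-STEP with the hypothesis `NotFlat` instead of `NonIsog`

The same statements as S_INDN, ZEN, S_FSTEP, with `∀ j, NotFlat W (g j)` (isogenous factors are allowed).
-/

set_option autoImplicit false

open MvPolynomial

namespace Pool.Agent.Helper42.TN

open WeierstrassCurve Height
open Pool.Agent.Helper29.BL Pool.Agent.Helper92.Ru Pool.Agent.Helper42.SG
open Pool.Agent.Helper60.HC (Lo nrs xs)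
open Pool.Agent.Helper68.VN hiding xs Good nz
open Pool.Agent.Helper19.PM

noncomputable section

/-- `{g = 0}` has no flat direction: at the generic points (over every algebraically closed field `κ ⊇ K`, all components, all signs) no nonzero
constant vector `α` is orthogonal to the normal vector `(Ψ_i ∂_i g)_i` -/
def NotFlat {K : Type} [Field K] {σ : Type} [Fintype σ] (W : σ → Affine K)
    (g : MvPolynomial σ K) : Prop :=
  ∀ (a : σ) (κ : Type) [Field κ] [Algebra K κ] [IsAlgClosed κ] (Ω : Type) [Field Ω] [Algebra K Ω]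
    [Algebra κ Ω] [IsScalarTower K κ Ω] (X Ψ : σ → Ω),
    (∀ i, Ψ i ^ 2 = Bf (mapS Ω W i) (X i)) → aeval X g = 0 →
    AlgebraicIndependent κ (fun i : {i : σ // i ≠ a} => X i) → ∀ α : σ → κ,
    ∑ i, algebraMap κ Ω (α i) * (Ψ i * aeval X (pderiv i g)) = 0 → α = 0

/-- **S_INDF** (independence, captain helper92): as S_INDN, for hypersurfaces without flat directions (`j ≥ 1`; no condition on `g0`). -/
def S_INDF : Prop :=
  ∀ (D0 m : ℕ), ∃ h0 : ℕ, 1 ≤ h0 ∧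
    ∀ (K : Type) [Field K] [CharZero K] (σ : Type) [Fintype σ] [DecidableEq σ]
      (W : σ → Affine K), (∀ i, (W i).IsElliptic) →
      ∀ n : ℕ, Fintype.card σ = m → m = n + 1 → ∀ (a : σ) (g : Fin n → MvPolynomial σ K)
      (g0 : MvPolynomial σ K), (∀ j, NotFlat W (g j)) → (∀ j, Irreducible (g j)) →
      Irreducible g0 → (∀ j i, degreeOf i (g j) ≤ D0) → (∀ i, degreeOf i g0 ≤ D0) →
      (∀ j i, degreeOf i (g j) ≠ 0) → (∀ i, degreeOf i g0 ≠ 0) →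
      ∀ (M : ℕ) (e : Fin n → ℕ) (c : Ix σ n M 1 e → K), (∀ j, h0 ≤ 4 ^ e j) → c ≠ 0 →
      (∀ α, c α ≠ 0 → SupN a h0 α) →
      ∀ (Ω : Type) [Field Ω] [Algebra K Ω] [IsAlgClosed Ω] (X Ψ : Fin n → σ → Ω)
        (X0 Ψ0 : σ → Ω), OnB W X Ψ X0 Ψ0 → (∀ j, aeval (X j) (g j) = 0) → aeval X0 g0 = 0 →
        AlgebraicIndependent K (Sum.elim (fun h : Fin n × {i : σ // i ≠ a} => X h.1 h.2)
          (fun i : {i : σ // i ≠ a} => X0 i)) →
        P0B W n M 1 e c X Ψ X0 Ψ0 ≠ 0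

/-- **ZENF**: the zero estimate ZEN with `NotFlat` (from S_INDF). -/
def ZENF : Prop :=
  ∀ (D0 m : ℕ), ∃ h0 : ℕ, 1 ≤ h0 ∧
    ∀ (K : Type) [Field K] [NumberField K] (σ : Type) [Fintype σ] [DecidableEq σ]
    (W : σ → Affine K), (∀ i, (W i).IsElliptic) →
    ∀ n : ℕ, 1 ≤ n → Fintype.card σ = m → m = n + 1 → ∀ (C0 : ℝ), 0 ≤ C0 →
    ∀ (M : ℕ) (CA : ℝ), 1 ≤ M → 0 ≤ CA → ∃ (D' : ℕ) (C' K1 : ℝ), 0 ≤ C' ∧
      ∀ (a : σ) (e : Fin n → ℕ) (Q : ℝ) (c : Ix σ n M 1 e → K) (ξ ψ : Fin n → σ → K)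
        (x0 ψ0 : σ → K) (g : Fin n → MvPolynomial σ K) (g0 : MvPolynomial σ K)
        (X Ψ : Fin n → σ → MvPowerSeries (Fin n × σ) K), (∀ j, NotFlat W (g j)) → c ≠ 0 →
        (∀ α, IsIntegral ℤ (c α)) →
        (∀ α, NumberField.house (c α) ≤ Real.exp (CA * Q)) →
        (∀ α, ¬ SupN a h0 α → c α = 0) → TayN W ξ ψ a g X Ψ →
        (∀ j i, ψ j i ^ 2 = Bf (W i) (ξ j i) ∧ ψ j i ≠ 0) →
        (∀ i, ψ0 i ^ 2 = Bf (W i) (x0 i)) → (∀ j, Irreducible (g j)) → Irreducible g0 →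
        (∀ j i, degreeOf i (g j) ≤ D0) → (∀ i, degreeOf i g0 ≤ D0) →
        (∀ j i, degreeOf i (g j) ≠ 0) → (∀ i, degreeOf i g0 ≠ 0) →
        (∀ j, Real.log (PH (g j)) ≤ C0 * (Q / 4 ^ e j)) → Real.log (PH g0) ≤ C0 * Q →
        eval x0 g0 = 0 → (∀ j, (4 : ℝ) ^ e j ≤ Q) →
        (∀ j j', j < j' → K1 * 4 ^ e j' ≤ (4 : ℝ) ^ e j) → (∀ j, K1 ≤ (4 : ℝ) ^ e j) →
        (∃ j, Lo (Finset.univ.erase a) D' (C' * (Q / 4 ^ e j)) (ξ j)) ∨
        Lo (Finset.univ.erase a) D' (C' * Q) x0 ∨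
        ∃ α : Fin n × σ →₀ ℕ, wt (fun h : Fin n × σ => 4 ^ e h.1) α < 1 ∧
          MvPowerSeries.coeff α (PT W n M 1 e c (fun _ _ => false) X Ψ x0 ψ0) ≠ 0

/-- **F-STEP for non-flat hypersurfaces** (isogenous factors allowed). -/
def S_FSTEPF : Prop :=
  ∀ (K : Type) [Field K] [NumberField K] [DecidableEq K] (σ : Type) [Fintype σ] [DecidableEq σ]
    (W : σ → Affine K), (∀ i, (W i).IsElliptic) →
    ∀ (H : ∀ i, (W i).Point → ℝ) (c₀ : ℝ), (∀ i, CanH (W i) (H i) c₀) → ∀ (a i1 : σ), i1 ≠ a →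
    ∀ n : ℕ, Fintype.card σ = n + 1 → ∀ (D0 : ℕ) (C0 ε : ℝ), 0 ≤ C0 → 0 < ε →
    ∃ (D' : ℕ) (C' θ K0 : ℝ), 0 < θ ∧ 0 ≤ C' ∧
      ∀ (g : Fin n → MvPolynomial σ K) (g0 : MvPolynomial σ K) (x : Fin n → ∀ i, (W i).Point)
        (x0 : ∀ i, (W i).Point) (e : Fin n → ℕ) (T Q : ℝ), (∀ j, NotFlat W (g j)) →
        AlN H n D0 i1 θ ε C0 K0 g g0 x x0 e T Q →
        ∃ i, (∃ j, Lo (Finset.univ.erase i) D' (C' * (Q / 4 ^ e j)) (xs (x j))) ∨
          Lo (Finset.univ.erase i) D' (C' * Q) (xs x0)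

/-- `End W = ℤ` over every algebraically closed field: for `x` transcendental over `Ω` and `(x, y)` on `W`, every point `P` of `W` with
coordinates in `Ω(x, y)` is `φ (x, y) + c`, `φ ∈ ℤ`, `c` a point with coordinates in `Ω` (or `0`) -/
def NoCM {K : Type} [Field K] (W : Affine K) : Prop :=
  ∀ (Ω : Type) [Field Ω] [Algebra K Ω] [IsAlgClosed Ω] (F : Type) [Field F] [DecidableEq F]
    [Algebra K F] [Algebra Ω F] [IsScalarTower K Ω F] (x y : F)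
    (h : (W.map (algebraMap K F)).toAffine.Nonsingular x y), Transcendental Ω x →
    ∀ (x' y' : F) (h' : (W.map (algebraMap K F)).toAffine.Nonsingular x' y'),
    x' ∈ IntermediateField.adjoin Ω ({x, y} : Set F) →
    y' ∈ IntermediateField.adjoin Ω ({x, y} : Set F) →
    ∃ (φ : ℤ) (c : (W.map (algebraMap K F)).toAffine.Point),
      (Affine.Point.some x' y' h' : (W.map (algebraMap K F)).toAffine.Point) =
        φ • (Affine.Point.some x y h : (W.map (algebraMap K F)).toAffine.Point) + c ∧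
      (c = 0 ∨ ∃ (x₀ y₀ : Ω) (h₀ : (W.map (algebraMap K F)).toAffine.Nonsingular
        (algebraMap Ω F x₀) (algebraMap Ω F y₀)), c = Affine.Point.some _ _ h₀)

end

end Pool.Agent.Helper42.TN
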