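import Pool.Agent.Helper19.PM.Goals
import Pool.Agent.Helper68.T3.GoalsT

/-!
# Project TN (MP_a41896_nt): definitions

All centres of codimension `≥ 2` in a product of `n` pairwise non-isogenous elliptic curves.  The F-STEP: `n` blocks
(points `x_j`, `q_j = 4 ^ e j`, `n + 1 = |σ|`), every `x_j` on an irreducible hypersurface `g_j = 0` of slow height, `x_0` (constant) on
`g_0 = 0`.  The centre of the block `j` is `X_(i1) = t_j`, which is near the point at ALL places together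
(`∑_v log 1/|x - t|_v = h(x) + O(1)`).  `a` is the coordinate eliminated in all blocks and at `x_0`, `i1 ≠ a`.
Same conventions as `Helper68/VN`, `Helper68/T3`, `Helper19/PM` (`δ = 1`).
-/

set_option autoImplicit false

open MvPolynomial

namespace Pool.Agent.Helper42.TN

open WeierstrassCurve Height
open Pool.Agent.Helper29.BL Pool.Agent.Helper92.Ru Pool.Agent.Helper42.SG
open Pool.Agent.Helper77.SGC (N0)
open Pool.Agent.Helper60.HC (Lo nrs xs)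
open Pool.Agent.Helper68.VN hiding xs Good nz
open Pool.Agent.Helper68.T3 (TayC gsup dlt)
open Pool.Agent.Helper19.PM

noncomputable section

/-! ## Isogeny -/

/-- `W` and `W'` are not isogenous (over any extension): for `x` transcendental over an algebraically closed field `Ω ⊇ K` and
`(x, y)` on `W`, every point `(x', y')` of `W'` with coordinates in `Ω(x, y)` is constant -/
def NonIsog {K : Type} [Field K] (W W' : Affine K) : Prop :=
  ∀ (Ω : Type) [Field Ω] [Algebra K Ω] [IsAlgClosed Ω] (F : Type) [Field F] [Algebra K F]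
    [Algebra Ω F] [IsScalarTower K Ω F] (x y x' y' : F), Transcendental Ω x →
    (W.map (algebraMap K F)).toAffine.Equation x y →
    (W'.map (algebraMap K F)).toAffine.Equation x' y' →
    x' ∈ IntermediateField.adjoin Ω ({x, y} : Set F) →
    y' ∈ IntermediateField.adjoin Ω ({x, y} : Set F) → x' ∈ (algebraMap Ω F).range

section defs

variable {K : Type} [Field K] {σ : Type}

/-! ## Unknowns, centre data on a hypersurface, conditions -/

/-- the support of the unknowns: in every block the exponent of `X_a` is `0`, all exponents are `< q_j / h0` -/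
def SupN (a : σ) (h0 : ℕ) {n M : ℕ} {e : Fin n → ℕ} (α : Ix σ n M 1 e) : Prop :=
  ∀ j, (α.1 j a).1.val = 0 ∧ ∀ i, (α.1 j i).1.val * h0 < 4 ^ e j

/-- the centre data of one block on the hypersurface `g = 0` (`m = |σ|`: `c (N+1)^(m-1)` functions) -/
structure HypC [NumberField K] [Fintype σ] (g : MvPolynomial σ K) (c d : ℕ)
    (B : AbsoluteValue K ℝ → ℝ) (N : ℕ) (T : Type) [Fintype T] (gr : T → ℕ)
    (E : T → MvPolynomial σ K) (r : T → (σ → ℕ) → K) : Prop where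
  card : Fintype.card T ≤ c * (N + 1) ^ (Fintype.card σ - 1)
  bad : ∀ k : ℕ, Nat.card {t : T // gr t < k} ≤ c * k * (N + 1) ^ (Fintype.card σ - 2)
  bd : ∀ v t s, v (r t s) ≤ B v ^ (N + 1)
  int : ∀ t s, IsIntegral ℤ ((d : K) ^ (N + 1) * r t s)
  exp : ∀ (A : Type) [CommRing A] [Algebra K A] (X : σ → A), aeval X g = 0 →
    ∀ s : σ → ℕ, (∀ i, s i ≤ N) →
      ∏ i, X i ^ s i = ∑ t, algebraMap K A (r t s) * aeval X (E t)

/-- the centre `X_(i1) = t` -/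
def cenH (i1 : σ) (t : K) (_ : Unit) : MvPolynomial σ K := X i1 - C t

/-- its multidegree -/
def wH [DecidableEq σ] (i1 : σ) (_ : Unit) (i : σ) : ℕ := if i = i1 then 1 else 0

/-- the conditions on `c`: for all blocks at once, if some index `t j` is bad -/
def CondN [Fintype σ] [DecidableEq σ] (S : σ → ℕ → Bool → Fin 2 → ℕ → ℕ → ℕ → ℕ → K)
    (n M k0 : ℕ) (e : Fin n → ℕ) (T : Fin n → Type) (gr : ∀ j, T j → ℕ)
    (r : ∀ j, T j → (σ → ℕ) → K) (U : Type) (ν : U → (σ → ℕ) → K)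
    (c : Ix σ n M 1 e → K) : Prop :=
  ∀ (l : Fin n → σ → Bool) (μ : Fin n → σ → Fin 2) (t : ∀ j, T j),
    (∃ j, gr j (t j) < k0 * 4 ^ e j) → ∀ u : U,
    ∑ α : Ix σ n M 1 e, c α * ∑ p ∈ Fintype.piFinset fun _ : Fin n => box σ (2 * M),
      (∏ j, Gam S M (e j) (r j (t j)) (l j) (μ j) (p j) (α.1 j)) * ν u (fun i => ∑ j, p j i) = 0

/-- the rows of the Siegel system -/
abbrev RowsN (σ : Type) (n k0 : ℕ) (e : Fin n → ℕ) (T : Fin n → Type) (gr : ∀ j, T j → ℕ)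
    (U : Type) : Type :=
  (Fin n → σ → Bool) × (Fin n → σ → Fin 2) ×
    {t : ∀ j, T j // ∃ j, gr j (t j) < k0 * 4 ^ e j} × U

/-- the key inequality: as `KeyW`, on the hypersurfaces `g j = 0` -/
def KeyN [Fintype σ] [DecidableEq σ] {J : Type} {n : ℕ} (W : σ → Affine K)
    (g : Fin n → MvPolynomial σ K) (f : Fin n → J → MvPolynomial σ K) (w : J → σ → ℕ)
    (M k0 : ℕ) (x0 ψ0 : σ → K) (e : Fin n → ℕ) (c : Ix σ n M 1 e → K)
    (B : AbsoluteValue K ℝ → ℝ) (G : Fin n → AbsoluteValue K ℝ → ℝ) : Prop :=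
  ∀ (v : AbsoluteValue K ℝ) (A : Type) [CommRing A] [Algebra K A] (N : A → ℝ → Prop), NFr v N →
    ∀ (X Ψ : Fin n → σ → A) (a : Fin n → σ → ℝ) (ρ : Fin n → ℝ) (s b : ℝ),
      OnB W X Ψ (cn A x0) (cn A ψ0) → (∀ j, aeval (X j) (g j) = 0) → (∀ j i, 1 ≤ a j i) →
      1 ≤ b → (∀ j, 0 < ρ j ∧ ρ j ≤ 1) → (∀ j i, N (X j i) (a j i)) →
      (∀ j i, N (Ψ j i) (b * a j i ^ 2)) → (∀ i, v (ψ0 i) ≤ b * Mv v (x0 i) ^ 2) →
      (∀ j k, N (aeval (X j) (f j k)) (ρ j * ∏ i, a j i ^ w k i)) → (∀ α, v (c α) ≤ s) →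
      ∀ lam : Fin n → σ → Bool,
      N (PB (mapS A W) n M 1 e (fun α => algebraMap K A (c α)) lam X Ψ (cn A x0) (cn A ψ0))
        (s * b ^ (2 * n * Fintype.card σ) *
          (B v ^ sqB e * ∏ j, G j v ^ ((4 * M + 4) * 4 ^ e j)) * keyV v M 1 k0 e a ρ x0)

/-! ## Taylor expansions on the hypersurfaces -/

/-- the Taylor expansions of the points `(ξ j, ψ j)` on the hypersurfaces `g j = 0`, parameters: the coordinates `i ≠ a` -/
structure TayN (W : σ → Affine K) {n : ℕ} (ξ ψ : Fin n → σ → K) (a : σ)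
    (g : Fin n → MvPolynomial σ K) (X Ψ : Fin n → σ → MvPowerSeries (Fin n × σ) K) :
    Prop extends TayC W ξ ψ X Ψ where
  eqX : ∀ j i, i ≠ a → X j i =
    MvPowerSeries.C (ξ j i) + MvPowerSeries.C (4 * ψ j i ^ 2) * MvPowerSeries.X (j, i)
  rel : ∀ j, aeval (X j) (g j) = 0

/-- the radii: `ρ_j |δ_j|² / (b |g_j|² (∏ M_v(ξ_(ji)))^E)`, `ρ_j = rhoW w (f j) v (ξ j)` -/
def radN [Fintype σ] {J : Type} {n : ℕ} (w : J → σ → ℕ) (f : Fin n → J → MvPolynomial σ K)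
    (E : ℕ) (g : Fin n → MvPolynomial σ K) (a : σ) (b : ℝ) (v : AbsoluteValue K ℝ)
    (ξ ψ : Fin n → σ → K) (h : Fin n × σ) : ℝ :=
  rhoW w (f h.1) v (ξ h.1) * (v (dlt (g h.1) a (ξ h.1) (ψ h.1)) ^ 2 /
    (b * gsup v (g h.1) ^ 2 * (∏ i, Mv v (ξ h.1 i)) ^ E))

end defs

/-! ## Points -/

/-- data of the F-STEP: `n` points `x j` on the hypersurfaces `g j = 0`, a point `x0` on `g0 = 0`, `2^(e j) x j` near `x0`;
`q_j = 4^(e j)`, `T ~ |x0|² ~ q_j |x_j|²`; `Q` (`q_j ≤ Q`, `K0 Q ≤ T`) is the scale of the slow heights; the coordinate `i1` of the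
points is not slow -/
structure AlN {K : Type} [Field K] [NumberField K] [DecidableEq K] {σ : Type} [Fintype σ]
    {W : σ → Affine K} (H : ∀ i, (W i).Point → ℝ) (n D0 : ℕ) (i1 : σ) (θ ε C0 K0 : ℝ)
    (g : Fin n → MvPolynomial σ K) (g0 : MvPolynomial σ K) (x : Fin n → ∀ i, (W i).Point)
    (x0 : ∀ i, (W i).Point) (e : Fin n → ℕ) (T Q : ℝ) : Prop where
  nd : ∀ j i, x j i ≠ 0 ∧ ps (x j i) ≠ 0
  nd0 : ∀ i, x0 i ≠ 0 ∧ ps (x0 i) ≠ 0
  up : ∀ j, (4 : ℝ) ^ e j * nrs H (x j) ≤ 2 * T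
  up0 : nrs H x0 ≤ 2 * T
  near : ∀ j, nrs H ((2 ^ e j) • x j - x0) ≤ θ * T
  fast : ∀ j, ε * T ≤ (4 : ℝ) ^ e j * logHeight₁ (xs (x j) i1)
  irr : ∀ j, Irreducible (g j)
  irr0 : Irreducible g0
  deg : ∀ j i, degreeOf i (g j) ≤ D0
  deg0 : ∀ i, degreeOf i g0 ≤ D0
  ht : ∀ j, Real.log (PH (g j)) ≤ C0 * (Q / 4 ^ e j)
  ht0 : Real.log (PH g0) ≤ C0 * Q
  on : ∀ j, eval (xs (x j)) (g j) = 0
  on0 : eval (xs x0) g0 = 0
  big : ∀ j, K0 ≤ (4 : ℝ) ^ e j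
  le : ∀ j, (4 : ℝ) ^ e j ≤ Q
  bigT : K0 * Q ≤ T
  grow : ∀ j j', j < j' → K0 * 4 ^ e j' ≤ 4 ^ e j

/-- **F-STEP**: all circuits are impossible. -/
def S_FSTEP : Prop :=
  ∀ (K : Type) [Field K] [NumberField K] [DecidableEq K] (σ : Type) [Fintype σ] [DecidableEq σ]
    (W : σ → Affine K), (∀ i, (W i).IsElliptic) → (∀ i k, i ≠ k → NonIsog (W i) (W k)) →
    ∀ (H : ∀ i, (W i).Point → ℝ) (c₀ : ℝ), (∀ i, CanH (W i) (H i) c₀) → ∀ (a i1 : σ), i1 ≠ a →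
    ∀ n : ℕ, Fintype.card σ = n + 1 → ∀ (D0 : ℕ) (C0 ε : ℝ), 0 ≤ C0 → 0 < ε →
    ∃ (D' : ℕ) (C' θ K0 : ℝ), 0 < θ ∧ 0 ≤ C' ∧
      ∀ (g : Fin n → MvPolynomial σ K) (g0 : MvPolynomial σ K) (x : Fin n → ∀ i, (W i).Point)
        (x0 : ∀ i, (W i).Point) (e : Fin n → ℕ) (T Q : ℝ),
        AlN H n D0 i1 θ ε C0 K0 g g0 x x0 e T Q →
        ∃ i, (∃ j, Lo (Finset.univ.erase i) D' (C' * (Q / 4 ^ e j)) (xs (x j))) ∨
          Lo (Finset.univ.erase i) D' (C' * Q) (xs x0)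

/-- **S_INDN** (independence; captain helper92): the function does not vanish at ANY generic point of ANY component of
`∏_j {g_j = 0} × {g_0 = 0}`, with any signs. -/
def S_INDN : Prop :=
  ∀ (D0 m : ℕ), ∃ h0 : ℕ, 1 ≤ h0 ∧
    ∀ (K : Type) [Field K] [CharZero K] (σ : Type) [Fintype σ] [DecidableEq σ]
      (W : σ → Affine K), (∀ i, (W i).IsElliptic) → (∀ i k, i ≠ k → NonIsog (W i) (W k)) →
      ∀ n : ℕ, Fintype.card σ = m → m = n + 1 → ∀ (a : σ) (g : Fin n → MvPolynomial σ K)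
      (g0 : MvPolynomial σ K), (∀ j, Irreducible (g j)) → Irreducible g0 →
      (∀ j i, degreeOf i (g j) ≤ D0) → (∀ i, degreeOf i g0 ≤ D0) →
      (∀ j i, degreeOf i (g j) ≠ 0) → (∀ i, degreeOf i g0 ≠ 0) →
      ∀ (M : ℕ) (e : Fin n → ℕ) (c : Ix σ n M 1 e → K), (∀ j, h0 ≤ 4 ^ e j) → c ≠ 0 →
      (∀ α, c α ≠ 0 → SupN a h0 α) →
      ∀ (Ω : Type) [Field Ω] [Algebra K Ω] [IsAlgClosed Ω] (X Ψ : Fin n → σ → Ω)
        (X0 Ψ0 : σ → Ω), OnB W X Ψ X0 Ψ0 → (∀ j, aeval (X j) (g j) = 0) → aeval X0 g0 = 0 →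
        AlgebraicIndependent K (Sum.elim (fun h : Fin n × {i : σ // i ≠ a} => X h.1 h.2)
          (fun i : {i : σ // i ≠ a} => X0 i)) →
        P0B W n M 1 e c X Ψ X0 Ψ0 ≠ 0

end

end Pool.Agent.Helper42.TN
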