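import Pool.Agent.Helper42.TN.Defs

/-!
# Project TN (MP_a41896_nt), module A: the centre on the hypersurfaces, the count, the conditions, the key inequality

All goals are independent (named goals may be hypotheses of other goals as indicated).  Most of them are ADAPTATIONS of landed
files: copy the file, change the namespace and the definitions.  `m = |σ|`, `q_j = 4 ^ e j`, `δ = 1`.
-/

set_option autoImplicit false

open MvPolynomial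

namespace Pool.Agent.Helper42.TN

open WeierstrassCurve Height
open Pool.Agent.Helper29.BL Pool.Agent.Helper92.Ru Pool.Agent.Helper42.SG
open Pool.Agent.Helper77.SGC (N0)
open Pool.Agent.Helper60.HC (Lo nrs xs)
open Pool.Agent.Helper68.VN hiding xs Good nz
open Pool.Agent.Helper68.T3 (TayC gsup dlt)
open Pool.Agent.Helper19.PM

noncomputable section

/-! ## The centre data -/

/-- **HYPR** (the recursion on the hypersurface). No hypotheses.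
PROOF. `Y_i = X_i - t_i`, `c_γ = coeff γ (shiftP t g)`, so `aeval X g = ∑_(γ ∈ box D0) c_γ Y^γ` in every algebra (`shiftP ξ g = g(X + ξ)`; degrees `≤ D0`), `c_0 = eval t g ≠ 0`, `u_γ = c_γ / c_0`. If `aeval X g = 0` then `1 = - ∑_(γ ≠ 0) u_γ Y^γ`.
CLAIM: there are `ρ(β, τ) ∈ K`, `β ∈ box N`, `τ ∈ T := {τ ∈ box N, ∃ i, N < τ_i + D0}`, such that in every algebra with `aeval X g = 0`: `Y^β = ∑_(τ ∈ T) ρ(β, τ) Y^τ`; strong induction on `m N - |β|` (define `ρ` by recursion, or prove existence for all algebras at once for fixed `β`: the existence statement contains the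
universal quantifier over the algebras and the bounds): if `β ∈ T` take `ρ(β, τ) = [τ = β]`; otherwise `β_i + D0 ≤ N` for all `i` and `Y^β = - ∑_(γ ∈ box D0, γ ≠ 0) u_γ Y^(β+γ)`, `β + γ ∈ box N`, `|β + γ| > |β|`: `ρ(β, τ) := - ∑_(γ ≠ 0) u_γ ρ(β + γ, τ)`.
BOUNDS: `v(ρ(β, τ)) ≤ (cst v ((D0+1)^m) * G)^(m N - |β|)` (nonarchimedean: maximum; `1 ≤ G`), `d^(m N - |β|) ρ(β, τ)` integral.
`X^s = ∏_i (Y_i + t_i)^(s_i) = ∑_(β ≤ s) ∏_i binom(s_i, β_i) t_i^(s_i - β_i) Y^β`, so `R s τ := ∑_(β ≤ s) (∏_i binom(s_i, β_i) t_i^(s_i - β_i)) ρ(β, τ)`: at most `(N+1)^m ≤ 2^(m (N+1))` terms, `binom ≤ 2^N`, `t_i^.. ≤ (D0+1)^N`; `c1 := (4 (D0+1)^(m+2))^m` (or any larger number) works. -/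
def HYPR : Prop :=
  ∀ (D0 m : ℕ), ∃ c1 : ℕ, 1 ≤ c1 ∧ ∀ (K : Type) [Field K] [CharZero K] (σ : Type) [Fintype σ]
    [DecidableEq σ] (g : MvPolynomial σ K) (t : σ → ℕ) (N : ℕ), Fintype.card σ = m →
    (∀ i, degreeOf i g ≤ D0) → (∀ i, t i ≤ D0) → eval (fun i => (t i : K)) g ≠ 0 →
    ∃ R : (σ → ℕ) → (σ → ℕ) → K,
      (∀ (A : Type) [CommRing A] [Algebra K A] (X : σ → A), aeval X g = 0 → ∀ s ∈ box σ N,
        ∏ i, X i ^ s i = ∑ τ ∈ (box σ N).filter (fun τ => ∃ i, N < τ i + D0),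
          algebraMap K A (R s τ) * ∏ i, (X i - (t i : A)) ^ τ i) ∧
      (∀ (v : AbsoluteValue K ℝ) (G : ℝ) (s τ : σ → ℕ), 1 ≤ G →
        (∀ γ, v (coeff γ (shiftP (fun i => (t i : K)) g) / eval (fun i => (t i : K)) g) ≤ G) →
        v (R s τ) ≤ (cst v c1 * G ^ m) ^ (N + 1)) ∧
      ∀ (d : ℕ) (s τ : σ → ℕ),
        (∀ γ, IsIntegral ℤ
          ((d : K) * (coeff γ (shiftP (fun i => (t i : K)) g) / eval (fun i => (t i : K)) g))) →
        IsIntegral ℤ ((d : K) ^ (m * (N + 1)) * R s τ)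

/-- **HYPG** (the centre data on a hypersurface). Hypotheses allowed: HYPR, DENW (`Helper19.PM`), NFB (`Helper76.SGC`).
PROOF. Compare CENU (`Helper19/PM/Goals.lean`, landed). There are `t_i ∈ {0, .., D0}` with `g(t) ≠ 0` (`MvPolynomial.eq_zero_of_eval_zero_at_prod_finset`-type theorem, `CharZero`). The `t` of the statement is `t i1`. HYPR gives `R`.
`T := {τ : σ → Fin (N+1) // ∃ i, N < τ_i + D0}`, `E τ = ∏_i (X_i - t_i)^(τ_i)`, `gr τ = τ_(i1)`, `r τ s = R s τ` (for `s ∈ box N`; `0` otherwise). `card ≤ m D0 (N+1)^(m-1)` (the pairs (`i`, `τ_i ∈ (N - D0, N]`) and the other coordinates). `bad`: `τ_(i1) < k`, and `N < τ_i + D0` for some `i`: for `i ≠ i1` at most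
`k D0 (N+1)^(m-2)` for each `i`; for `i = i1`: `N < τ_(i1) + D0 < k + D0`, so `N + 1 ≤ k (1 + D0)` (`k ≥ 1`), at most `D0 (N+1)^(m-1) ≤ D0 (1 + D0) k (N+1)^(m-2)`. So `c := m (D0+1)^2 + 1`.
NORMS (`CenN`): `aeval X (cenH i1 t ()) = X_(i1) - t`, `∏ a_i^(wH i1 () i) = a_(i1)`; `Nm (X_i - t_i) ≤ cst v (D0+1) a_i` (NFB); `Nm (E τ) ≤ ∏_(i ≠ i1) (cst v (D0+1) a_i)^(τ_i) (ρ a_(i1))^(τ_(i1)) ≤ (cst v (D0+1))^(m N) ∏ a_i^N ρ^(gr τ)`.
SLOW CONSTANTS: `u_γ = c_γ / g(t)`, `γ ∈ box D0` (other `c_γ` are `0`): `logHeight₁ (u_γ) ≤ log PH g + C ≤ A + C`: `mulHeight₁ (c_γ / c_0) = mulHeight ![c_γ, c_0]`, and at every place `max (v c_γ) (v c_0) ≤ cst v (..) * max_s v (coeff s g)` (`c_γ = ∑_s coeff s g ∏ binom(s_i, γ_i) t_i^(s_i - γ_i)`), `PH g = mulHeight` of the coefficients.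
`U v = ∏_(γ ∈ box D0) Mv v (u_γ)` (`≥ 1`, `≥ v (u_γ)`, `PS (log U) = ∑ logHeight₁ (u_γ)`: `PS_log_Mv`), `G v := cst v (c1 (D0+1)^m) * U v ^ m` (or larger). `d := (∏_γ d_γ)^m`, `d_γ` of DENW; `Mv (place φ) (u_γ)`: DENW. `(d_γ)`: a product of denominators is a denominator of each. -/
def HYPG : Prop :=
  ∀ (K : Type) [Field K] [NumberField K] (σ : Type) [Fintype σ] [DecidableEq σ] (D0 : ℕ),
    2 ≤ Fintype.card σ → ∃ (c : ℕ) (C : ℝ), 1 ≤ c ∧ 0 ≤ C ∧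
      ∀ (g : MvPolynomial σ K) (i1 : σ) (A : ℝ), 0 ≤ A → g ≠ 0 → (∀ i, degreeOf i g ≤ D0) →
      Real.log (PH g) ≤ A →
      ∃ (t d : ℕ) (G : AbsoluteValue K ℝ → ℝ), t ≤ D0 ∧ 0 < d ∧
        (d : ℝ) ≤ Real.exp (C * (1 + A)) ∧ PlC G ∧
        PS (fun v => Real.log (G v)) ≤ C * (1 + A) ∧
        (∀ φ : K →+* ℂ, G (NumberField.place φ) ≤ Real.exp (C * (1 + A))) ∧
        ∀ N : ℕ, ∃ (T : Type) (_ : Fintype T) (gr : T → ℕ) (E : T → MvPolynomial σ K)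
          (r : T → (σ → ℕ) → K), HypC g c d G N T gr E r ∧
            CenN (cenH i1 (t : K)) (wH i1) G N gr E

/-! ## The count, the conditions -/

/-- **CARDN** (the count). No hypotheses. Compare CARDB (`Pool/Agent/Helper83/VN/CARDB.lean`) and CARD3 (`Helper68.T3`).
PROOF. `N0 M e + 1 = 2·4^e M + 4^e + 1 ≤ 4^e (2M+2)`. The tuples `t` with a bad component: `≤ ∑_j bad_j ∏_(j' ≠ j) #(T j') ≤ ∑_j c k0 q_j (q_j (2M+2))^(m-2) ∏_(j' ≠ j) c (q_(j') (2M+2))^(m-1) = n c^n k0 (2M+2)^(n(m-1) - 1) ∏_j q_j^(m-1)` (`m ≥ 2`; a union over `j` of the sets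
`{t, gr j (t j) bad}`, each a product). Rows `≤ 2^(nm) 2^(nm)` times this times `S0`. UNKNOWNS: `α ↦ α.1` is a bijection (`σ → Fin 1` has one element); for every `j`: the pairs `(l_i, m_i)`: for `i = a`: `l = 0`, `M + 1` pairs; for `i ≠ a`: `l h0 < q_j` (`l < q_j` is automatic, `h0 ≥ 1`), the number `L_j` of these `l` satisfies
`L_j h0 ≥ q_j` (`l < L_j` iff `l h0 < q_j`); `#unknowns = ∏_j (M+1)^m L_j^(m-1)`, so `#unknowns * h0^(n(m-1)) ≥ (M+1)^(nm) ∏_j q_j^(m-1)`. Multiply the claim by `h0^(n(m-1))` and use the count hypothesis times `∏_j q_j^(m-1)`. -/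
def CARDN : Prop :=
  ∀ (σ : Type) [Fintype σ] [DecidableEq σ] (n M k0 c h0 S0 : ℕ) (a : σ) (e : Fin n → ℕ)
    (T : Fin n → Type) [∀ j, Fintype (T j)] (gr : ∀ j, T j → ℕ) (U : Type) [Fintype U],
    1 ≤ n → 2 ≤ Fintype.card σ → 1 ≤ h0 →
    (∀ j, Fintype.card (T j) ≤ c * (N0 M (e j) + 1) ^ (Fintype.card σ - 1)) →
    (∀ j, Nat.card {t : T j // gr j t < k0 * 4 ^ e j} ≤
      c * (k0 * 4 ^ e j) * (N0 M (e j) + 1) ^ (Fintype.card σ - 2)) →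
    Fintype.card U ≤ S0 →
    2 * 4 ^ (n * Fintype.card σ) * n * c ^ n * k0 *
      (2 * M + 2) ^ (n * (Fintype.card σ - 1) - 1) * S0 * h0 ^ (n * (Fintype.card σ - 1)) ≤
      (M + 1) ^ (n * Fintype.card σ) →
    2 * Nat.card (RowsN σ n k0 e T gr U) ≤ Nat.card {α : Ix σ n M 1 e // SupN a h0 α}

/-- **SIEN** (the conditions can be solved). Hypotheses allowed: CARDN, HOUS (`Helper77.SGC`).
PROOF. As SIEW (docstring in `Helper19/PM/Goals.lean`, landed in `Pool/Agent/*/PM/SIEW.lean`; constants `d j`, `G j`) and SIEB (`Pool/Agent/Helper64/VN/SIEB.lean`). `Pool.Agent.Helper68.Ru.siegel` with the rows `RowsN` and the unknowns `{α // SupN a h0 α}` (extend the solution by `0`). The entry in the row `(l, μ, t, u)` at `α` is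
`E * ∑_(p ∈ piFinset (box (2M))) (∏_j Gam S M (e j) (r j (t j)) (l j) (μ j) (p j) (α.1 j)) * ν u (∑_j p j)`, `E = ∏_j D^(|σ| (M+1) 4^(e j)) * (d j)^(N0 M (e j) + 1)`. Every factor `D^.. (d j)^.. Gam ..` is integral of house `≤ exp (C1 (4^(e j) + L))`: `house x = sup_φ (NumberField.place φ) x`
(`NumberField.house_eq_sup'`), `B (place φ) ≤ b0` (finitely many `φ`), `G j (place φ)^(N0+1) ≤ exp ((2M+2) L)`, `(d j)^(N0+1) ≤ exp ((2M+2) L)` (`SlowW.den, arch`). The number of the `p` is `(2M+1)^(mn)`, `house (ν) ≤ exp H`. So the entries are integral of house `≤ exp (C2 (sqB e + H + L))`; the rest as in SIEB.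
The set of unknowns is not empty: `l = m = 0` everywhere satisfies `SupN`. -/
def SIEN : Prop :=
  ∀ (K : Type) [Field K] [NumberField K] (σ : Type) [Fintype σ] [DecidableEq σ]
    (W : σ → Affine K) (B : AbsoluteValue K ℝ → ℝ) (D c : ℕ), (∀ v, 1 ≤ B v) →
    0 < D → ∀ (n M k0 h0 S0 : ℕ) (a : σ), 1 ≤ n → 2 ≤ Fintype.card σ → 1 ≤ h0 →
    2 * 4 ^ (n * Fintype.card σ) * n * c ^ n * k0 *
      (2 * M + 2) ^ (n * (Fintype.card σ - 1) - 1) * S0 * h0 ^ (n * (Fintype.card σ - 1)) ≤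
      (M + 1) ^ (n * Fintype.card σ) →
    ∃ C : ℝ, 0 ≤ C ∧ ∀ (e d : Fin n → ℕ) (G : Fin n → AbsoluteValue K ℝ → ℝ)
      (L : ℝ) (S : σ → ℕ → Bool → Fin 2 → ℕ → ℕ → ℕ → ℕ → K)
      (T : Fin n → Type) [∀ j, Fintype (T j)] (gr : ∀ j, T j → ℕ)
      (E : ∀ j, T j → MvPolynomial σ K) (r : ∀ j, T j → (σ → ℕ) → K) (U : Type) [Fintype U]
      (ν : U → (σ → ℕ) → K) (x0 : σ → K) (g : Fin n → MvPolynomial σ K) (H : ℝ),
      SlowW e d G L → 0 ≤ L → ArS W B D M S →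
      (∀ j, HypC (g j) c (d j) (G j) (N0 M (e j)) (T j) (gr j) (E j) (r j)) →
      Fintype.card U ≤ S0 → 0 ≤ H → RedD x0 (2 * n * M) ν H →
      ∃ cc : Ix σ n M 1 e → K, cc ≠ 0 ∧ (∀ α, IsIntegral ℤ (cc α)) ∧
        (∀ α, NumberField.house (cc α) ≤ Real.exp (C * (sqB e + H + L))) ∧
        (∀ α, ¬ SupN a h0 α → cc α = 0) ∧ CondN S n M k0 e T gr r U ν cc

/-! ## Expansion, vanishing, size -/

/-- **EXPN** (expansion of `P^λ` on the hypersurfaces). No hypotheses.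
PROOF. As EXPW (`Helper19/PM/Goals.lean`; landed in `Pool/Agent/*/PM/EXPW.lean`; BLKX + EXPB: `Pool/Agent/Helper68/VN/BLKX.lean`, `Pool/Agent/Helper91/VN/EXPB.lean`), `δ = 1`: `CenC.exp` is replaced by `HypC.exp` for the algebra `A` and the point `X j` with `aeval (X j) (g j) = 0`. -/
def EXPN : Prop :=
  ∀ (K : Type) [Field K] [NumberField K] (σ : Type) [Fintype σ] [DecidableEq σ]
    (W : σ → Affine K) (B : AbsoluteValue K ℝ → ℝ) (D c n M : ℕ) (e d : Fin n → ℕ)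
    (G : Fin n → AbsoluteValue K ℝ → ℝ)
    (S : σ → ℕ → Bool → Fin 2 → ℕ → ℕ → ℕ → ℕ → K) (T : Fin n → Type) [∀ j, Fintype (T j)]
    (gr : ∀ j, T j → ℕ) (E : ∀ j, T j → MvPolynomial σ K) (r : ∀ j, T j → (σ → ℕ) → K)
    (g : Fin n → MvPolynomial σ K), ArS W B D M S →
    (∀ j, HypC (g j) c (d j) (G j) (N0 M (e j)) (T j) (gr j) (E j) (r j)) →
    ∀ (cc : Ix σ n M 1 e → K) (x0 ψ0 : σ → K) (A : Type) [CommRing A] [Algebra K A]
      (X Ψ : Fin n → σ → A), OnB W X Ψ (cn A x0) (cn A ψ0) → (∀ j, aeval (X j) (g j) = 0) →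
      ∀ lam : Fin n → σ → Bool,
      PB (mapS A W) n M 1 e (fun α => algebraMap K A (cc α)) lam X Ψ (cn A x0) (cn A ψ0) =
        ∑ μ : Fin n → σ → Fin 2, ∑ t : ∀ j, T j,
          (∏ j, ((∏ i, (Ψ j i * cn A ψ0 i) ^ (μ j i).val) * aeval (X j) (E j (t j)))) *
            algebraMap K A (BrB S n M 1 e T r cc x0 lam μ t)

/-- **VANN** (a bad index kills the bracket). No hypotheses.
PROOF. `δ = 1`: the factor `∏ x0^(α.2 i)` is `1`. Expand `∏_j ∑_(g ∈ box 2M) Gam .. g .. * ∏_i x0^(g i) = ∑_(p ∈ piFinset (box 2M)) (∏_j Gam .. (p j) ..) * ∏_i x0_i^(∑_j p j i)` (`Finset.prod_sum`/`Finset.prod_univ_sum`). So `BrB = ∑_(k ∈ box (2nM)) G k * ∏_i x0_i^(k i)` with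
`G k := ∑_α cc α ∑_(p, ∑_j p j = k) ∏_j Gam ..` (`∑_j p j i ≤ 2nM`), and `∑_(k ∈ box (2nM)) ν u k * G k = ∑_α cc α ∑_p (∏_j Gam ..) * ν u (∑_j p j) = 0` by `CondN` (`l = lam`). `RedD.red`. (`Finset.sum_fiberwise_of_maps_to`.) -/
def VANN : Prop :=
  ∀ (K : Type) [Field K] [NumberField K] (σ : Type) [Fintype σ] [DecidableEq σ]
    (n M k0 : ℕ) (e : Fin n → ℕ) (S : σ → ℕ → Bool → Fin 2 → ℕ → ℕ → ℕ → ℕ → K)
    (T : Fin n → Type) (gr : ∀ j, T j → ℕ) (r : ∀ j, T j → (σ → ℕ) → K) (U : Type)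
    (ν : U → (σ → ℕ) → K) (x0 : σ → K) (H : ℝ), RedD x0 (2 * n * M) ν H →
    ∀ cc : Ix σ n M 1 e → K, CondN S n M k0 e T gr r U ν cc →
    ∀ (lam : Fin n → σ → Bool) (μ : Fin n → σ → Fin 2) (t : ∀ j, T j),
      (∃ j, gr j (t j) < k0 * 4 ^ e j) → BrB S n M 1 e T r cc x0 lam μ t = 0

/-- **BRNN** (size of the bracket). No hypotheses.
PROOF. As BRNW (`Helper19/PM/Goals.lean`; landed in `Pool/Agent/*/PM/BRNW.lean`) and BRNB (`Pool/Agent/Helper50/VN/BRNB.lean`), `δ = 1`, where of the centre data only the bound of the `r j t s` is used. -/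
def BRNN : Prop :=
  ∀ (K : Type) [Field K] [NumberField K] (σ : Type) [Fintype σ] [DecidableEq σ]
    (W : σ → Affine K) (B : AbsoluteValue K ℝ → ℝ) (D n M : ℕ), (∀ v, 1 ≤ B v) →
    ∀ (e : Fin n → ℕ) (G : Fin n → AbsoluteValue K ℝ → ℝ)
      (S : σ → ℕ → Bool → Fin 2 → ℕ → ℕ → ℕ → ℕ → K) (T : Fin n → Type)
      [∀ j, Fintype (T j)] (r : ∀ j, T j → (σ → ℕ) → K), (∀ j v, 1 ≤ G j v) →
      ArS W B D M S → (∀ j v t s, v (r j t s) ≤ G j v ^ (N0 M (e j) + 1)) →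
      ∀ (cc : Ix σ n M 1 e → K) (x0 : σ → K) (v : AbsoluteValue K ℝ) (s : ℝ), 0 ≤ s →
        (∀ α, v (cc α) ≤ s) →
        ∀ (lam : Fin n → σ → Bool) (μ : Fin n → σ → Fin 2) (t : ∀ j, T j),
        v (BrB S n M 1 e T r cc x0 lam μ t) ≤
          cst v ((Nat.card (Ix σ n M 1 e) : ℝ) *
            ∏ j : Fin n, ((2 * M + 1 : ℝ) * (N0 M (e j) + 1)) ^ Fintype.card σ) * s *
          (∏ j : Fin n, G j v ^ (N0 M (e j) + 1) * B v ^ (4 ^ e j * (M + 1) * Fintype.card σ)) *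
          ((∏ j : Fin n, ∏ i, Mv v (x0 i) ^ (2 * M - 2 * (μ j i).val)) * ∏ i, Mv v (x0 i) ^ 1)

/-! ## The key inequality -/

/-- **KEYN** (the key inequality). Hypotheses allowed: EXPN, VANN, BRNN, CNTB (`Helper68.VN`), NFB (`Helper76.SGC`).
PROOF. As KEYW (docstring in `Helper19/PM/Goals.lean`, landed in `Pool/Agent/*/PM/KEYW.lean`) and KEYB (`Pool/Agent/Helper9/VN/KEYB.lean`), `δ = 1`: EXPN instead of EXPW (`aeval (X j) (g j) = 0` is a hypothesis of `KeyN`), VANN: only the tuples `t` with `gr j (t j) ≥ k0 q_j` for ALL `j` remain. The number of the tuples: CNTB with the constant `c 2^m`: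
`#(T j) ≤ c (N+1)^(m-1) ≤ (c 2^m)^(N+1)` (`N + 1 ≤ 2^(N+1)`; if `c = 0` then `T j` is empty). BRNN with `HypC.bd`. -/
def KEYN : Prop :=
  ∀ (K : Type) [Field K] [NumberField K] (σ : Type) [Fintype σ] [DecidableEq σ]
    (W : σ → Affine K) (B : AbsoluteValue K ℝ → ℝ) (D c : ℕ), PlC B →
    ∀ (J : Type) (w : J → σ → ℕ) (n M k0 : ℕ), 1 ≤ n → 1 ≤ M →
    ∃ Bk : AbsoluteValue K ℝ → ℝ, PlC Bk ∧
    ∀ (g : Fin n → MvPolynomial σ K) (f : Fin n → J → MvPolynomial σ K) (e d : Fin n → ℕ)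
      (G : Fin n → AbsoluteValue K ℝ → ℝ)
      (S : σ → ℕ → Bool → Fin 2 → ℕ → ℕ → ℕ → ℕ → K) (T : Fin n → Type)
      [∀ j, Fintype (T j)] (gr : ∀ j, T j → ℕ) (E : ∀ j, T j → MvPolynomial σ K)
      (r : ∀ j, T j → (σ → ℕ) → K) (U : Type) (ν : U → (σ → ℕ) → K) (x0 ψ0 : σ → K) (H : ℝ),
      (∀ j v, 1 ≤ G j v) → ArS W B D M S →
      (∀ j, HypC (g j) c (d j) (G j) (N0 M (e j)) (T j) (gr j) (E j) (r j)) →
      (∀ j, CenN (f j) w (G j) (N0 M (e j)) (gr j) (E j)) →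
      RedD x0 (2 * n * M) ν H →
      ∀ cc : Ix σ n M 1 e → K, CondN S n M k0 e T gr r U ν cc →
        KeyN W g f w M k0 x0 ψ0 e cc Bk G

/-- **AUXN**: the auxiliary function. From ARRB, SIEN, KEYN. -/
def AUXN : Prop :=
  ∀ (K : Type) [Field K] [NumberField K] (σ : Type) [Fintype σ] [DecidableEq σ]
    (W : σ → Affine K) (J : Type) (w : J → σ → ℕ) (c : ℕ) (n M k0 h0 S0 : ℕ) (a : σ),
    1 ≤ n → 1 ≤ M → 2 ≤ Fintype.card σ → 1 ≤ h0 →
    2 * 4 ^ (n * Fintype.card σ) * n * c ^ n * k0 *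
      (2 * M + 2) ^ (n * (Fintype.card σ - 1) - 1) * S0 * h0 ^ (n * (Fintype.card σ - 1)) ≤
      (M + 1) ^ (n * Fintype.card σ) →
    ∃ (C : ℝ) (Bk : AbsoluteValue K ℝ → ℝ), 0 ≤ C ∧ PlC Bk ∧
      ∀ (g : Fin n → MvPolynomial σ K) (f : Fin n → J → MvPolynomial σ K) (e d : Fin n → ℕ)
        (G : Fin n → AbsoluteValue K ℝ → ℝ) (L : ℝ) (U : Type) [Fintype U]
        (ν : U → (σ → ℕ) → K) (x0 ψ0 : σ → K) (H : ℝ), SlowW e d G L → 0 ≤ L →
        (∀ j, ∃ (T : Type) (_ : Fintype T) (gr : T → ℕ) (E : T → MvPolynomial σ K)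
          (r : T → (σ → ℕ) → K), HypC (g j) c (d j) (G j) (N0 M (e j)) T gr E r ∧
            CenN (f j) w (G j) (N0 M (e j)) gr E) →
        Fintype.card U ≤ S0 → 0 ≤ H → RedD x0 (2 * n * M) ν H →
        ∃ cc : Ix σ n M 1 e → K, cc ≠ 0 ∧ (∀ α, IsIntegral ℤ (cc α)) ∧
          (∀ α, NumberField.house (cc α) ≤ Real.exp (C * (sqB e + H + L))) ∧
          (∀ α, ¬ SupN a h0 α → cc α = 0) ∧ KeyN W g f w M k0 x0 ψ0 e cc Bk G

theorem auxn (hA : ARRB) (hS : SIEN) (hK : KEYN) : AUXN := by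
  intro K _ _ σ _ _ W J w c n M k0 h0 S0 a hn hM hm hh hcount
  obtain ⟨B, D, hB, hD, hA⟩ := hA K σ W
  obtain ⟨S, hS'⟩ := hA M
  obtain ⟨C, hC, hSi⟩ := hS K σ W B D c (fun v => hB.one_le v) hD n M k0 h0 S0 a hn hm hh hcount
  obtain ⟨Bk, hBk, hKk⟩ := hK K σ W B D c hB J w n M k0 hn hM
  refine ⟨C, Bk, hC, hBk, fun g f e d G L U _ ν x0 ψ0 H hsl hL hcen hU hH hred => ?_⟩
  choose T hT gr E r hr1 hr2 using hcen
  obtain ⟨cc, h0, hi, hh, hs, hc⟩ := hSi e d G L S T gr E r U ν x0 g H hsl hL hS' hr1 hU hH hred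
  exact ⟨cc, h0, hi, hh, hs, hKk g f e d G S T gr E r U ν x0 ψ0 H
    (fun j v => (hsl.plc j).one_le v) hS' hr1 hr2 hred cc hc⟩

end

end Pool.Agent.Helper42.TN
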