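import Pool.Agent.Helper42.TN.GoalsA

/-!
# Project TN (MP_a41896_nt), module T: Taylor expansions on the hypersurfaces, local and global estimate, numbers, zero estimate

All goals are independent (named goals may be hypotheses of other goals as indicated).  `m = |σ|`, `q_j = 4 ^ e j`.
-/

set_option autoImplicit false

open MvPolynomial

namespace Pool.Agent.Helper42.TN

open WeierstrassCurve Height
open Pool.Agent.Helper29.BL Pool.Agent.Helper92.Ru Pool.Agent.Helper42.SG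
open Pool.Agent.Helper77.SGC (N0)
open Pool.Agent.Helper60.HC (Lo nrs xs)
open Pool.Agent.Helper68.VN hiding xs Good nz
open Pool.Agent.Helper68.T3 (TayC gsup dlt)
open Pool.Agent.Helper19.PM

noncomputable section

/-! ## The centre -/

/-- **CENL** (the centre `X_(i1) = t` is near the point at all places together). Hypothesis allowed: CHW (`Helper19.PM`, landed).
PROOF. `eval x (cenH i1 t ()) = x i1 - t ≠ 0`, `∏_i Mv v (x i) ^ wH i1 () i = Mv v (x i1)`, the supremum over `Unit` is the only term: `rhoW = min 1 (v (x i1 - t) / Mv v (x i1)) ≤ v (x i1 - t) / Mv v (x i1)`, so `- log rhoW ≥ log Mv v (x i1) - log v (x i1 - t)`. Sum over the places (`PS_mono`, `PS_add`/`PS_sub`, `FS` of `log Mv` and of `log v (y)`,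
CHW): `cW ≥ logHeight₁ (x i1) - 0` (`PS_log_Mv`, product formula `PS_log`). Second part: `logHeight₁ (t : K) ≤ log (D0 + 1)` (`Mv v t ≤ cst v (D0 + 1)` if `t ≤ D0`, or the landed height of an integer). -/
def CENL : Prop :=
  ∀ (K : Type) [Field K] [NumberField K] (σ : Type) [Fintype σ] [DecidableEq σ] (D0 : ℕ),
    ∃ C : ℝ, 0 ≤ C ∧ ∀ (i1 : σ) (t : ℕ) (x : σ → K), t ≤ D0 →
      (x i1 ≠ t → logHeight₁ (x i1) ≤ cW (wH i1) (cenH i1 (t : K)) x ∧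
        ∃ k, eval x (cenH i1 (t : K) k) ≠ 0) ∧ logHeight₁ (t : K) ≤ C

/-! ## Taylor expansions -/

/-- **TAYS** (the Taylor frame on the hypersurfaces). Hypotheses allowed: TAYX (`Helper68.VN`), TAYP, IFT (`Helper68.T3`), FRPS (all landed or about to land: `Pool/Agent/*/T3/TAYP.lean`, `IFT.lean`, `Pool/Agent/*/VN/TAYX.lean`).
PROOF. As TAYW3 (docstring in `Helper68/T3/GoalsT.lean`, landed: `Pool/Agent/Helper35/T3/TAYW3.lean`), now EVERY block `j` is treated like the block `1` there. `E := 2 D0 + 9`. `X, Ψ` of TAYX for `n` blocks (`TayB`), `B_X` its constant; keep `X j i`, `Ψ j i` for `i ≠ a` and replace those of `a`: for every `j` IFT for `τ = Fin n × σ`, `ξ = ξ j`,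
`κ = 4 ψ(j,a)²`, `u i = C (4 ψ(j,i)²) * X (j, i)` gives `y_j`; `X' j a := C (ξ j a) + C κ * y_j`, and `Ψ' j a` := the series `P` of TAYP for the curve `W a`, `t = y_j`. NORMS: `v`, `r = radN ..`, `ρ_j = rhoW .. ∈ (0, 1]` (`ξ j i1 ≠ t j`): `r > 0`. `M_i = Mv v (ξ j i)`, `P = ∏ M_i`, `v(4 ψ_i²) ≤ B₁ M_i³`,
`r(j,i) ≤ (v δ_j)² / (b gsup² P^(2D0+9))` because `ρ_j ≤ 1`; everything is then as in TAYW3 (the norms increase with `r`): `NPS v r (u i) (B₁ M_i³ r(j,i))`, IFT, TAYP, `r(j,i) ≤ ρ_j (B₂B₃)²/(b P³)`.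
THE CENTRE: `aeval (X j) (cenH i1 t ()) = (ξ_(i1) - t) + 4ψ_(i1)² X_(j,i1)` (`i1 ≠ a`). `v(ξ_(i1) - t) ≤ cst v (D0 + 1) ρ_j M_(i1)` (if `v(ξ-t) ≤ M` then `v(ξ-t) = ρ_j M`; otherwise `ρ_j = 1`, and `v(ξ - t) ≤ cst v (D0+1) M`), and `v(4ψ²) r(j,i1) ≤ B₁ M_(i1)³ ρ_j (B₂B₃)²/(b P³) ≤ ρ_j` if `b ≥ B₁ (B₂B₃)²`. Sum of two terms: `≤ cst v 2 * ..`; `∏_i (B' M_i)^(wH i1 k i) = B' M_(i1)`.
Take `b = B'` = one large place constant (all bounds are monotone in it; `radN` decreases with `b`; the constants of the frame may be smaller than `b`). -/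
def TAYS : Prop :=
  ∀ (K : Type) [Field K] [NumberField K] (σ : Type) [Fintype σ] [DecidableEq σ] [Nonempty σ]
    (W : σ → Affine K) (D0 : ℕ),
    ∃ B' : AbsoluteValue K ℝ → ℝ, PlC B' ∧
    ∀ (n : ℕ) (ξ ψ : Fin n → σ → K) (g : Fin n → MvPolynomial σ K) (a i1 : σ) (t : Fin n → ℕ),
      i1 ≠ a → (∀ j, t j ≤ D0) → (∀ j, ξ j i1 ≠ t j) →
      (∀ j i, ψ j i ^ 2 = Bf (W i) (ξ j i) ∧ ψ j i ≠ 0) → (∀ j i, (g j).degreeOf i ≤ D0) →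
      (∀ j, eval (ξ j) (g j) = 0) → (∀ j, eval (ξ j) (pderiv a (g j)) ≠ 0) →
      ∃ X Ψ : Fin n → σ → MvPowerSeries (Fin n × σ) K, TayN W ξ ψ a g X Ψ ∧
        ∀ v : AbsoluteValue K ℝ,
          (∀ j, 0 < rhoW (wH i1) (cenH i1 (t j : K)) v (ξ j) ∧
            rhoW (wH i1) (cenH i1 (t j : K)) v (ξ j) ≤ 1) ∧
          (∀ h, 0 < radN (wH i1) (fun j => cenH i1 (t j : K)) (2 * D0 + 9) g a (B' v) v ξ ψ h) ∧
          (∀ j i, NPS v (radN (wH i1) (fun j => cenH i1 (t j : K)) (2 * D0 + 9) g a (B' v) v ξ ψ)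
              (X j i) (B' v * Mv v (ξ j i)) ∧
            NPS v (radN (wH i1) (fun j => cenH i1 (t j : K)) (2 * D0 + 9) g a (B' v) v ξ ψ)
              (Ψ j i) (B' v * Mv v (ξ j i) ^ 2)) ∧
          ∀ j k, NPS v
            (radN (wH i1) (fun j => cenH i1 (t j : K)) (2 * D0 + 9) g a (B' v) v ξ ψ)
            (aeval (X j) (cenH i1 (t j : K) k))
            (rhoW (wH i1) (cenH i1 (t j : K)) v (ξ j) *
              ∏ i, (B' v * Mv v (ξ j i)) ^ wH i1 k i)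

/-! ## The local and the global estimate -/

/-- **LOCN** (the local estimate). Hypothesis allowed: FRPS.
PROOF. As LOCW (`Helper19/PM/Goals.lean`; landed: `Pool/Agent/Helper25/PM/LOCW.lean`) and LOC3 (landed: `Pool/Agent/Helper66/T3/LOC3.lean`), with `KeyN` (the hypothesis `aeval (X j) (g j) = 0` is `TayN.rel`), `δ = 1`, `a j i = B' v * M_v(ξ j i)`, `b = B' v`. The powers of `G j v` are those of `KeyN`. -/
def LOCN : Prop :=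
  ∀ (K : Type) [Field K] [NumberField K] (σ : Type) [Fintype σ] [DecidableEq σ]
    (W : σ → Affine K) (J : Type) (w : J → σ → ℕ) (n M k0 : ℕ)
    (B B' B'' : AbsoluteValue K ℝ → ℝ), 1 ≤ n → PlC B → PlC B' → PlC B'' →
    ∃ Bt : AbsoluteValue K ℝ → ℝ, PlC Bt ∧
    ∀ (g : Fin n → MvPolynomial σ K) (f : Fin n → J → MvPolynomial σ K)
      (G : Fin n → AbsoluteValue K ℝ → ℝ)
      (e : Fin n → ℕ) (c : Ix σ n M 1 e → K) (ξ ψ ω : Fin n → σ → K) (x0 ψ0 : σ → K) (a : σ)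
      (X Ψ : Fin n → σ → MvPowerSeries (Fin n × σ) K) (α : Fin n × σ →₀ ℕ) (dl : K)
      (v : AbsoluteValue K ℝ) (r : Fin n × σ → ℝ) (ρ : Fin n → ℝ) (s : ℝ),
      KeyN W g f w M k0 x0 ψ0 e c B G → (∀ j v, 1 ≤ G j v) → TayN W ξ ψ a g X Ψ →
      (∀ i, ψ0 i ^ 2 = Bf (W i) (x0 i)) →
      (∀ α, v (c α) ≤ s) → (∀ h, 0 < r h) → (∀ j, 0 < ρ j ∧ ρ j ≤ 1) →
      (∀ j i, NPS v r (X j i) (B' v * Mv v (ξ j i)) ∧ NPS v r (Ψ j i) (B' v * Mv v (ξ j i) ^ 2)) →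
      (∀ j k, NPS v r (aeval (X j) (f j k)) (ρ j * ∏ i, (B' v * Mv v (ξ j i)) ^ w k i)) →
      (∀ i, v (ψ0 i) ≤ B' v * Mv v (x0 i) ^ 2) →
      (∀ j i, Mv v (ξ j i) ^ (2 * 4 ^ e j) * Mv v (x0 i) ^ 2 ≤ B'' v ^ (4 ^ e j) *
        max (v (lawP W e false ξ ψ x0 ψ0 j i).1) (v (lawP W e false ξ ψ x0 ψ0 j i).2) *
          Mv v (ω j i)) →
      (∀ lam : Fin n → σ → Bool, MvPowerSeries.coeff α (PT W n M 1 e c lam X Ψ x0 ψ0) =
        (∏ j, ∏ i, if lam j i = true then ω j i ^ M else 1) * dl) →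
      v dl ≤ s * (Bt v ^ sqB e * ∏ j, G j v ^ ((4 * M + 4) * 4 ^ e j)) *
        (∏ j, ∏ i, (max (v (lawP W e false ξ ψ x0 ψ0 j i).1)
          (v (lawP W e false ξ ψ x0 ψ0 j i).2)) ^ M * Mv v (ξ j i) ^ (4 ^ e j + 2)) *
        (∏ j, ρ j ^ (k0 * 4 ^ e j)) * (∏ i, Mv v (x0 i)) * ∏ h, (1 / r h) ^ α h

/-- **GLOBN** (the global inequality). Hypotheses allowed: HHO, CHW (`Helper19.PM`).
PROOF. As GLOBW (landed: `Pool/Agent/Helper47/PM/GLOBW.lean`) and GLOB3 (landed: `Pool/Agent/Helper37/T3/GLOB3.lean`): logarithms of the local inequality with `s = ⨆ α, v (c α)`, sum over the places. `log (1 / radN h) = - log ρ_j + log B' + 2 log (gsup v (g j)) + E ∑_i log Mv v (ξ j i) - 2 log v (dlt ..)`, `j = h.1`; `PS`: `cW w (f j) (ξ j) + PS (log B') + 2 log PH (g j) + E ∑ logHeight₁ - 0`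
(`PS (log gsup) = log PH`: `PS_log_iSup`, `g j ≠ 0` as its derivative is not `0`; product formula for `dlt .. ≠ 0`). -/
def GLOBN : Prop :=
  ∀ (K : Type) [Field K] [NumberField K] (σ : Type) [Fintype σ] [DecidableEq σ]
    (J : Type) [Fintype J] (w : J → σ → ℕ) (n M k0 E : ℕ) (Bt B' : AbsoluteValue K ℝ → ℝ),
    PlC Bt → PlC B' → ∃ C : ℝ, 0 ≤ C ∧
    ∀ (f : Fin n → J → MvPolynomial σ K) (G : Fin n → AbsoluteValue K ℝ → ℝ)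
      (e : Fin n → ℕ) (ι : Type) [Finite ι] (c : ι → K) (A : ℝ) (ξ ψ : Fin n → σ → K)
      (x0 : σ → K) (g : Fin n → MvPolynomial σ K) (a : σ) (lo : Fin n → σ → K × K)
      (α : Fin n × σ →₀ ℕ) (dl : K),
      (∀ j, PlC (G j)) → c ≠ 0 → 0 ≤ A →
      (∀ i, IsIntegral ℤ (c i)) → (∀ i, NumberField.house (c i) ≤ Real.exp A) → dl ≠ 0 →
      (∀ j i, (lo j i).1 ≠ 0 ∨ (lo j i).2 ≠ 0) →
      (∀ j i, FS (fun v => Real.log (max (v (lo j i).1) (v (lo j i).2)))) →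
      (∀ j, ∃ k, eval (ξ j) (f j k) ≠ 0) → (∀ j, dlt (g j) a (ξ j) (ψ j) ≠ 0) →
      (∀ (v : AbsoluteValue K ℝ) (s : ℝ), (∀ i, v (c i) ≤ s) →
        v dl ≤ s * (Bt v ^ sqB e * ∏ j, G j v ^ ((4 * M + 4) * 4 ^ e j)) *
        (∏ j, ∏ i, (max (v (lo j i).1) (v (lo j i).2)) ^ M * Mv v (ξ j i) ^ (4 ^ e j + 2)) *
        (∏ j, rhoW w (f j) v (ξ j) ^ (k0 * 4 ^ e j)) * (∏ i, Mv v (x0 i)) *
        ∏ h, (1 / radN w f E g a (B' v) v ξ ψ h) ^ α h) →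
      ∑ j, (k0 : ℝ) * 4 ^ e j * cW w (f j) (ξ j) ≤
        ∑ j, ∑ i, (M * PS (fun v => Real.log (max (v (lo j i).1) (v (lo j i).2))) +
          ((4 : ℝ) ^ e j + 2) * logHeight₁ (ξ j i)) + ∑ i, logHeight₁ (x0 i) +
        ∑ h, (α h : ℝ) * (C + cW w (f h.1) (ξ h.1) + 2 * Real.log (PH (g h.1)) +
          E * ∑ i, logHeight₁ (ξ h.1 i)) +
        C * (sqB e + A + ∑ j, (4 : ℝ) ^ e j * PS (fun v => Real.log (G j v)))

/-- **NUMN** (numbers). No hypotheses.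
PROOF. Real arithmetic, as NUMW (`Pool/Agent/*/PM/NUMW.lean`), NUMB (`Pool/Agent/Helper14/VN/NUMB.lean`), NUM3 (`Pool/Agent/Helper45/T3/NUM3.lean`). `K0 ≥ 1`; `s_j = ∑_i a (j,i)`, `∑_j s_j/q_j < 1`, so `s_j ≤ q_j`. `G := ∑_j q_j g_j ≥ n ε T`. The right side is at most
`∑_j M w_j ≤ n T + n M m c0` (`M θ ≤ 1`); `∑_j (q_j + 2)(y_j + m c0) ≤ 2 n T + 4 n T/K0 + 3 n m c0 Q` (`q_j y_j ≤ 2T`, `y_j ≤ 2T/K0`, `1 ≤ q_j ≤ Q`); `X0s ≤ 2T + m c0`; `∑ a_h g_j = ∑_j s_j g_j ≤ G`; `∑ a_h C ≤ C n Q`; `∑_h a_h 2 A2_j ≤ 2 ∑_j (s_j/q_j) C0 Q ≤ 2 C0 Q`; `∑_h a_h E ∑_i X ≤ E ∑_j s_j (y_j + m c0) ≤ 2 E T + E n m c0 Q`;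
`C (∑ q_j + A) ≤ C (n + CA) Q`. All the terms with `Q ≤ T/K0` or constants are `≤ C₁ T/K0` (`1 ≤ Q`). So `(k0 - 1) G ≤ (3n + 2 + 2E) T + C₁ T/K0 < (3n + 3 + 2E) T` if `K0 > C₁`, `T > 0`; but `(k0 - 1) G ≥ n (k0 - 1) ε T ≥ n (14 + 2E) T ≥ (3n + 3 + 2E) T`. -/
def NUMN : Prop :=
  ∀ (m n M k0 E : ℕ) (ε θ c0 C CA C0 : ℝ), 1 ≤ n → 0 < ε →
    14 + 2 * (E : ℝ) ≤ ((k0 : ℝ) - 1) * ε →
    0 ≤ θ → M * θ ≤ 1 → 0 ≤ c0 → 0 ≤ C → 0 ≤ CA → 0 ≤ C0 → ∃ K0 : ℝ, ∀ (σ : Type) [Fintype σ]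
      (q y g w A2 : Fin n → ℝ) (Q T A X0s : ℝ) (X a : Fin n × σ → ℝ), Fintype.card σ = m →
      (∀ j, 1 ≤ q j ∧ q j ≤ Q ∧ K0 ≤ q j) → K0 * Q ≤ T →
      (∀ j, 0 ≤ y j ∧ q j * y j ≤ 2 * T) → (∀ j, ε * T ≤ q j * g j) → (∀ j, 0 ≤ g j) →
      (∀ j, w j ≤ θ * T + m * c0) → X0s ≤ 2 * T + m * c0 →
      (∀ h, 0 ≤ X h) → (∀ j, ∑ i, X (j, i) ≤ y j + m * c0) → (∀ h, 0 ≤ a h) →
      ∑ h : Fin n × σ, a h / q h.1 < 1 → A ≤ CA * Q → (∀ j, q j * A2 j ≤ C0 * Q) →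
      ∑ j, (k0 : ℝ) * q j * g j ≤
        ∑ j, (M * w j + (q j + 2) * ∑ i, X (j, i)) + X0s +
        ∑ h : Fin n × σ, a h * (C + g h.1 + 2 * A2 h.1 + E * ∑ i, X (h.1, i)) +
        C * (∑ j, q j + A) → False

/-! ## The zero estimate, the derivative -/

/-- **ZEN** (the zero estimate). `h0` depends on `D0`, `m` only (S_INDN). Assembly in module Z (`GoalsZ.lean`). -/
def ZEN : Prop :=
  ∀ (D0 m : ℕ), ∃ h0 : ℕ, 1 ≤ h0 ∧
    ∀ (K : Type) [Field K] [NumberField K] (σ : Type) [Fintype σ] [DecidableEq σ]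
    (W : σ → Affine K), (∀ i, (W i).IsElliptic) → (∀ i k, i ≠ k → NonIsog (W i) (W k)) →
    ∀ n : ℕ, 1 ≤ n → Fintype.card σ = m → m = n + 1 → ∀ (C0 : ℝ), 0 ≤ C0 →
    ∀ (M : ℕ) (CA : ℝ), 1 ≤ M → 0 ≤ CA → ∃ (D' : ℕ) (C' K1 : ℝ), 0 ≤ C' ∧
      ∀ (a : σ) (e : Fin n → ℕ) (Q : ℝ) (c : Ix σ n M 1 e → K) (ξ ψ : Fin n → σ → K)
        (x0 ψ0 : σ → K) (g : Fin n → MvPolynomial σ K) (g0 : MvPolynomial σ K)
        (X Ψ : Fin n → σ → MvPowerSeries (Fin n × σ) K), c ≠ 0 →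
        (∀ α, IsIntegral ℤ (c α)) →
        (∀ α, NumberField.house (c α) ≤ Real.exp (CA * Q)) →
        (∀ α, ¬ SupN a h0 α → c α = 0) → TayN W ξ ψ a g X Ψ →
        (∀ j i, ψ j i ^ 2 = Bf (W i) (ξ j i) ∧ ψ j i ≠ 0) →
        (∀ i, ψ0 i ^ 2 = Bf (W i) (x0 i)) → (∀ j, Irreducible (g j)) → Irreducible g0 →
        (∀ j i, degreeOf i (g j) ≤ D0) → (∀ i, degreeOf i g0 ≤ D0) →
        (∀ j i, degreeOf i (g j) ≠ 0) → (∀ i, degreeOf i g0 ≠ 0) →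
        (∀ j, Real.log (PH (g j)) ≤ C0 * (Q / 4 ^ e j)) → Real.log (PH g0) ≤ C0 * Q →
        eval x0 g0 = 0 → (∀ j, (4 : ℝ) ^ e j ≤ Q) →
        (∀ j j', j < j' → K1 * 4 ^ e j' ≤ (4 : ℝ) ^ e j) → (∀ j, K1 ≤ (4 : ℝ) ^ e j) →
        (∃ j, Lo (Finset.univ.erase a) D' (C' * (Q / 4 ^ e j)) (ξ j)) ∨
        Lo (Finset.univ.erase a) D' (C' * Q) x0 ∨
        ∃ α : Fin n × σ →₀ ℕ, wt (fun h : Fin n × σ => 4 ^ e h.1) α < 1 ∧
          MvPowerSeries.coeff α (PT W n M 1 e c (fun _ _ => false) X Ψ x0 ψ0) ≠ 0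

/-- **PDR** (a point where the derivative vanishes is low). Hypothesis allowed: S_RESL (`Helper60.T3`, landed: `Pool/Agent/Helper64/T3/RESL.lean`).
PROOF. `q := pderiv a g`: `q ≠ 0` (characteristic `0`, `degreeOf a g ≥ 1`), `degreeOf i q ≤ D0`, `¬ g ∣ q` (`degreeOf a q < degreeOf a g`, domain), `log PH q ≤ log PH g + C` (the coefficients of `q` are `(m_a + 1)` times coefficients of `g`, `m_a + 1 ≤ D0`: compare the local maxima; `HeightLocal`-type lemma, or `HT2` of `Helper92.ZH`).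
S_RESL with `h := g`, `g := q`, `A := A + C`. -/
def PDR : Prop :=
  ∀ (K : Type) [Field K] [NumberField K] (σ : Type) [Fintype σ] [DecidableEq σ] (D0 : ℕ),
    ∃ (D' : ℕ) (C : ℝ), 0 ≤ C ∧ ∀ (g : MvPolynomial σ K) (x : σ → K) (a : σ) (A : ℝ),
      Irreducible g → (∀ i, g.degreeOf i ≤ D0) → g.degreeOf a ≠ 0 → eval x g = 0 →
      eval x (pderiv a g) = 0 → Real.log (PH g) ≤ A → 0 ≤ A →
      Lo (Finset.univ.erase a) D' (C * (1 + A)) x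

end

end Pool.Agent.Helper42.TN
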